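import Mathlib

/-!
Sub-mean-value inequality for powers of the modulus of an entire function, in one and in
several complex variables.
-/

namespace Pool.Agent.Lib.MP_09e892_an

open MeasureTheory Real Metric Set Filter
open scoped ENNReal

/-- One variable: the value at the centre is at most the circle average, for every power. -/
theorem rpow_le_circleAverage (F : ℂ → ℂ) (hF : Differentiable ℂ F) (p : ℝ) (hp : 0 < p) :
    ‖F 0‖ ^ p ≤ circleAverage (fun z => ‖F z‖ ^ p) 0 1 := by
  have hcont : Continuous (fun z => ‖F z‖ ^ p) :=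
    hF.continuous.norm.rpow_const (fun _ => Or.inr hp.le)
  by_cases h0 : F 0 = 0
  · rw [h0, norm_zero, Real.zero_rpow hp.ne']
    exact circleAverage_nonneg_of_nonneg (fun z _ => Real.rpow_nonneg (norm_nonneg _) _)
  have hA : AnalyticOnNhd ℂ F univ := fun z _ => hF.analyticAt z
  have hA1 : AnalyticOnNhd ℂ F (closedBall 0 |(1 : ℝ)|) := hA.mono (subset_univ _)
  have hJ := hA1.circleAverage_log_norm one_ne_zero h0
  have hlog : Real.log ‖F 0‖ ≤ circleAverage (fun z => Real.log ‖F z‖) 0 1 := by
    rw [hJ]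
    refine le_add_of_nonneg_left (finsum_nonneg fun u => ?_)
    by_cases hu : u ∈ closedBall (0 : ℂ) |(1 : ℝ)|
    · apply mul_nonneg
      · exact_mod_cast (MeromorphicOn.AnalyticOnNhd.divisor_nonneg hA1 u)
      · by_cases hu0 : u = 0
        · simp [hu0]
        · apply Real.log_nonneg
          have h1 : ‖u‖ ≤ 1 := by simpa using hu
          have h2 : 0 < ‖u‖ := norm_pos_iff.mpr hu0
          simp only [zero_sub, norm_neg, one_mul]
          exact (one_le_inv₀ h2).mpr h1
    · have : MeromorphicOn.divisor F (closedBall (0 : ℂ) |(1 : ℝ)|) u = 0 := by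
        by_contra hne
        exact hu ((MeromorphicOn.divisor F (closedBall (0 : ℂ) |(1 : ℝ)|)).supportWithinDomain hne)
      simp [this]
  set c : ℝ := ‖F 0‖ with hc
  have hcpos : 0 < c := norm_pos_iff.mpr h0
  have hint : CircleIntegrable (fun z => Real.log ‖F z‖) 0 1 :=
    (hA1.mono sphere_subset_closedBall).meromorphicOn.circleIntegrable_log_norm
  let ψ : ℂ → ℝ := fun z => c ^ p * p * Real.log ‖F z‖ + c ^ p * (1 - p * Real.log c)
  have hψint : CircleIntegrable ψ 0 1 := by
    apply CircleIntegrable.add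
    · exact IntervalIntegrable.const_mul hint _
    · exact circleIntegrable_const _ _ _
  have hψavg : circleAverage ψ 0 1
      = c ^ p * p * circleAverage (fun z => Real.log ‖F z‖) 0 1 + c ^ p * (1 - p * Real.log c) := by
    have h1 : CircleIntegrable (fun z => c ^ p * p * Real.log ‖F z‖) 0 1 :=
      IntervalIntegrable.const_mul hint _
    rw [circleAverage_fun_add h1 (circleIntegrable_const _ _ _), circleAverage_const]
    congr 1
    have := circleAverage_fun_smul (a := c ^ p * p) (f := fun z => Real.log ‖F z‖) (c := 0) (R := 1)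
    simpa [smul_eq_mul] using this
  let ψ' : ℂ → ℝ := fun z => min (ψ z) (‖F z‖ ^ p)
  have hz : F ⁻¹' {0}ᶜ ∈ codiscreteWithin (univ : Set ℂ) :=
    hA.preimage_zero_mem_codiscreteWithin h0 (mem_univ _) isConnected_univ
  have heq : ψ =ᶠ[codiscreteWithin (sphere (0 : ℂ) |(1 : ℝ)|)] ψ' := by
    apply codiscreteWithin_mono (subset_univ _)
    filter_upwards [hz] with z hz
    have hz' : 0 < ‖F z‖ := norm_pos_iff.mpr (by simpa using hz)
    symm
    apply min_eq_left
    have e1 : ‖F z‖ ^ p = c ^ p * Real.exp (p * (Real.log ‖F z‖ - Real.log c)) := by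
      rw [Real.rpow_def_of_pos hz', Real.rpow_def_of_pos hcpos, ← Real.exp_add]
      congr 1; ring
    have e2 := Real.add_one_le_exp (p * (Real.log ‖F z‖ - Real.log c))
    have e3 : 0 < c ^ p := Real.rpow_pos_of_pos hcpos p
    rw [e1]
    show c ^ p * p * Real.log ‖F z‖ + c ^ p * (1 - p * Real.log c) ≤ _
    nlinarith
  have h1 : circleAverage ψ 0 1 = circleAverage ψ' 0 1 :=
    circleAverage_congr_codiscreteWithin heq one_ne_zero
  have h2 : circleAverage ψ' 0 1 ≤ circleAverage (fun z => ‖F z‖ ^ p) 0 1 :=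
    circleAverage_mono (hψint.congr_codiscreteWithin heq)
      (hcont.continuousOn.circleIntegrable zero_le_one) (fun z _ => min_le_right _ _)
  have e3 : 0 < c ^ p := Real.rpow_pos_of_pos hcpos p
  have h3 : c ^ p ≤ circleAverage ψ 0 1 := by
    rw [hψavg]
    have := mul_le_mul_of_nonneg_left hlog (mul_pos e3 hp).le
    nlinarith
  linarith

/-- Rotation of `ℂ^n` by a unimodular scalar preserves Lebesgue measure. -/
theorem measurePreserving_rot (n : ℕ) (θ : ℝ) :
    MeasurePreserving (fun z : Fin n → ℂ => circleMap 0 1 θ • z) volume volume := by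
  have h1 : MeasurePreserving (fun w : ℂ => circleMap 0 1 θ * w) volume volume := by
    have := (rotation (Circle.exp θ)).measurePreserving
    have e : (fun w : ℂ => circleMap 0 1 θ * w) = rotation (Circle.exp θ) := by
      ext w
      simp [circleMap, rotation_apply]
    rw [e]
    exact this
  exact volume_preserving_pi (fun _ : Fin n => h1)

/-- Several variables: sub-mean-value inequality on polydiscs. -/
theorem vol_mul_le_lintegral (n : ℕ) (F : (Fin n → ℂ) → ℂ) (hF : Differentiable ℂ F)
    (p : ℝ) (hp : 0 < p) (r : ℝ) :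
    volume (closedBall (0 : Fin n → ℂ) r) * ENNReal.ofReal (‖F 0‖ ^ p)
      ≤ ∫⁻ h in closedBall (0 : Fin n → ℂ) r, ENNReal.ofReal (‖F h‖ ^ p) := by
  have hcont : Continuous (fun z => ‖F z‖ ^ p) :=
    hF.continuous.norm.rpow_const (fun _ => Or.inr hp.le)
  have h2π : (0 : ℝ) < 2 * π := by positivity
  have hpt : ∀ z : Fin n → ℂ, ENNReal.ofReal (2 * π) * ENNReal.ofReal (‖F 0‖ ^ p)
      ≤ ∫⁻ θ in Ioc 0 (2 * π), ENNReal.ofReal (‖F (circleMap 0 1 θ • z)‖ ^ p) := by
    intro z
    have hG : Differentiable ℂ (fun t : ℂ => F (t • z)) :=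
      hF.comp (differentiable_id.smul_const z)
    have h1 := rpow_le_circleAverage _ hG p hp
    simp only [zero_smul] at h1
    rw [circleAverage_def, smul_eq_mul, intervalIntegral.integral_of_le h2π.le] at h1
    have hc2 : Continuous (fun θ : ℝ => ‖F (circleMap 0 1 θ • z)‖ ^ p) :=
      hcont.comp ((continuous_circleMap 0 1).smul continuous_const)
    rw [← ofReal_integral_eq_lintegral_ofReal (hc2.integrableOn_Ioc)
      (Eventually.of_forall fun θ => Real.rpow_nonneg (norm_nonneg _) _),
      ← ENNReal.ofReal_mul h2π.le]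
    apply ENNReal.ofReal_le_ofReal
    have := mul_le_mul_of_nonneg_left h1 h2π.le
    rwa [← mul_assoc, mul_inv_cancel₀ h2π.ne', one_mul] at this
  have hmeas : Measurable (Function.uncurry fun (z : Fin n → ℂ) (θ : ℝ) =>
      ENNReal.ofReal (‖F (circleMap 0 1 θ • z)‖ ^ p)) := by
    apply Measurable.ennreal_ofReal
    apply Continuous.measurable
    exact hcont.comp (((continuous_circleMap 0 1).comp continuous_snd).smul continuous_fst)
  have hrot : ∀ θ : ℝ, ∫⁻ z in closedBall (0 : Fin n → ℂ) r,
      ENNReal.ofReal (‖F (circleMap 0 1 θ • z)‖ ^ p)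
      = ∫⁻ h in closedBall (0 : Fin n → ℂ) r, ENNReal.ofReal (‖F h‖ ^ p) := by
    intro θ
    have hpre : (fun z : Fin n → ℂ => circleMap 0 1 θ • z) ⁻¹' closedBall 0 r = closedBall 0 r := by
      ext z
      simp [norm_smul]
    have := (measurePreserving_rot n θ).setLIntegral_comp_preimage
      (s := closedBall 0 r) measurableSet_closedBall
      (f := fun h => ENNReal.ofReal (‖F h‖ ^ p)) hcont.measurable.ennreal_ofReal
    rwa [hpre] at this
  have key : ENNReal.ofReal (2 * π) *
      (volume (closedBall (0 : Fin n → ℂ) r) * ENNReal.ofReal (‖F 0‖ ^ p))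
      ≤ ENNReal.ofReal (2 * π) *
        ∫⁻ h in closedBall (0 : Fin n → ℂ) r, ENNReal.ofReal (‖F h‖ ^ p) := by
    calc _ = ∫⁻ _ in closedBall (0 : Fin n → ℂ) r,
          ENNReal.ofReal (2 * π) * ENNReal.ofReal (‖F 0‖ ^ p) := by
          rw [setLIntegral_const]; ring
      _ ≤ ∫⁻ z in closedBall (0 : Fin n → ℂ) r,
          ∫⁻ θ in Ioc 0 (2 * π), ENNReal.ofReal (‖F (circleMap 0 1 θ • z)‖ ^ p) :=
          lintegral_mono fun z => hpt z
      _ = ∫⁻ θ in Ioc 0 (2 * π), ∫⁻ z in closedBall (0 : Fin n → ℂ) r,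
          ENNReal.ofReal (‖F (circleMap 0 1 θ • z)‖ ^ p) :=
          lintegral_lintegral_swap hmeas.aemeasurable
      _ = _ := by
          simp_rw [hrot]
          rw [setLIntegral_const, Real.volume_Ioc, sub_zero, mul_comm]
  exact (ENNReal.mul_le_mul_iff_right (by simpa using Real.pi_pos) ENNReal.ofReal_ne_top).mp key

end Pool.Agent.Lib.MP_09e892_an
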